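import Mathlib

set_option autoImplicit false

namespace Pool.Agent.Results.MP_64c48d_gt.Heis

open Set

abbrev E := Fin 3 → ℝ

/-- Smooth means C^∞. -/
def Smooth {F : Type} [NormedAddCommGroup F] [NormedSpace ℝ F] (f : E → F) : Prop :=
  ContDiff ℝ ((⊤ : ℕ∞) : WithTop ℕ∞) f

/-- Derivative of a map at p in the direction v. -/
noncomputable def D {F : Type} [NormedAddCommGroup F] [NormedSpace ℝ F] (f : E → F) (p v : E) : F :=
  fderiv ℝ f p v

/-- Velocity of a curve. -/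
noncomputable def vel (γ : ℝ → E) : ℝ → E := deriv γ

/-- A smooth 1-form on R^3. -/
structure IsForm (η : E → E → ℝ) : Prop where
  smooth : ∀ v, Smooth fun p => η p v
  linear : ∀ p, IsLinearMap ℝ (η p)

/-- A smooth semi-Riemannian metric of indefinite signature on R^3. -/
structure IsIndefMetric (g : E → E → E → ℝ) : Prop where
  form : ∀ w, IsForm fun p v => g p v w
  symm : ∀ p v w, g p v w = g p w v
  nondeg : ∀ p v, (∀ w, g p v w = 0) → v = 0
  indef : ∀ p, ∃ v w, 0 < g p v v ∧ g p w w < 0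

/-- The geodesic equation of the Levi-Civita connection of g on the parameter set s, with
Christoffel symbols of the first kind. -/
def IsGeodesicOn (g : E → E → E → ℝ) (γ : ℝ → E) (s : Set ℝ) : Prop :=
  ∀ t ∈ s, DifferentiableAt ℝ γ t ∧ DifferentiableAt ℝ (vel γ) t ∧ ∀ w : E,
    g (γ t) (vel (vel γ) t) w + D (fun p => g p (vel γ t) w) (γ t) (vel γ t) -
      D (fun p => g p (vel γ t) (vel γ t)) (γ t) w / 2 = 0

/-- Every geodesic on an open interval extends to the whole line. -/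
def IsComplete (g : E → E → E → ℝ) : Prop :=
  ∀ γ s, IsOpen s → s.OrdConnected → IsGeodesicOn g γ s →
    ∃ γ', IsGeodesicOn g γ' univ ∧ EqOn γ' γ s

def IsLightLike (g : E → E → E → ℝ) (γ : ℝ → E) : Prop :=
  IsGeodesicOn g γ univ ∧ (∃ s t, γ s ≠ γ t) ∧ ∀ t, g (γ t) (vel γ t) (vel γ t) = 0

/-- A group of diffeomorphisms of R^3 acting freely, properly discontinuously and cocompactly and
preserving g and η, so that the quotient is a closed 3-manifold carrying g and η. -/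
structure IsDeckGroup (Γ : Subgroup (Equiv.Perm E)) (g : E → E → E → ℝ) (η : E → E → ℝ) : Prop where
  smooth : ∀ φ ∈ Γ, Smooth φ
  free : ∀ φ ∈ Γ, ∀ p, φ p = p → φ = 1
  proper : ∀ K, IsCompact K → {φ ∈ Γ | (φ '' K ∩ K).Nonempty}.Finite
  cocompact : ∃ K, IsCompact K ∧ ∀ p, ∃ φ ∈ Γ, φ p ∈ K
  metric : ∀ φ ∈ Γ, ∀ p v w, g (φ p) (D φ p v) (D φ p w) = g p v w
  form : ∀ φ ∈ Γ, ∀ p v, η (φ p) (D φ p v) = η p v

noncomputable def dx (i : Fin 3) : E →L[ℝ] ℝ := ContinuousLinearMap.proj i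

def g (p v w : E) : ℝ := v 0 * w 2 + v 2 * w 0 + v 1 * w 1 - p 0 * (v 0 * w 1 + v 1 * w 0)

theorem g_apply (p v w : E) :
    g p v w = v 0 * w 2 + v 2 * w 0 + v 1 * w 1 - p 0 * (v 0 * w 1 + v 1 * w 0) := rfl

theorem dg (p u v w : E) : D (fun p => g p v w) p u = -(u 0 * (v 0 * w 1 + v 1 * w 0)) := by
  rw [D, show fderiv ℝ (fun p => g p v w) p = _ from
    (((dx 0).hasFDerivAt.mul_const _).const_sub _).fderiv]
  simp [dx]; ring

theorem geo (γ : ℝ → E) (s : Set ℝ) : IsGeodesicOn g γ s ↔ ∀ t ∈ s, DifferentiableAt ℝ γ t ∧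
    HasDerivAt (deriv γ) ![0, deriv γ t 0 ^ 2, γ t 0 * deriv γ t 0 ^ 2] t := by
  refine forall₂_congr fun t _ => and_congr_right fun _ => ⟨fun ⟨h1, h2⟩ => ?_, fun h => ?_⟩
  · have a0 := h2 (Pi.single 0 1)
    have a1 := h2 (Pi.single 1 1)
    have a2 := h2 (Pi.single 2 1)
    simp only [dg] at a0 a1 a2
    simp [g_apply, vel] at a0 a1 a2
    rw [a2] at a1
    have e : deriv (deriv γ) t = ![0, deriv γ t 0 ^ 2, γ t 0 * deriv γ t 0 ^ 2] := by
      have b : deriv (deriv γ) t 1 = deriv γ t 0 ^ 2 := by linarith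
      ext i
      fin_cases i
      · exact a2
      · exact b
      · rw [b] at a0; simp; linarith
    exact e ▸ h1.hasDerivAt
  · refine ⟨h.differentiableAt, fun w => ?_⟩
    simp only [dg]
    simp [vel, h.deriv, g_apply]; ring

noncomputable def P (p v : E) (t : ℝ) : E := ![p 0 + v 0 * t, p 1 + v 1 * t + v 0 ^ 2 * t ^ 2 / 2,
  p 2 + v 2 * t + p 0 * v 0 ^ 2 * t ^ 2 / 2 + v 0 ^ 3 * t ^ 3 / 6]

noncomputable def V (p v : E) (t : ℝ) : E :=
  ![v 0, v 1 + v 0 ^ 2 * t, v 2 + p 0 * v 0 ^ 2 * t + v 0 ^ 3 * t ^ 2 / 2]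

theorem dP (p v : E) (c t : ℝ) : HasDerivAt (fun t => P p v (t - c)) (V p v (t - c)) t := by
  refine hasDerivAt_pi.2 fun i => ?_
  have h := (hasDerivAt_id' t).sub_const c
  fin_cases i
  · exact ((h.const_mul _).const_add _).congr_deriv (by simp [V])
  · exact (((h.const_mul _).const_add _).add (((h.pow 2).const_mul _).div_const 2)).congr_deriv
      (by simp [V]; ring)
  · exact ((((h.const_mul _).const_add _).add (((h.pow 2).const_mul _).div_const 2)).add
      (((h.pow 3).const_mul _).div_const 6)).congr_deriv (by simp [V]; ring)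

theorem dV (p v : E) (c t : ℝ) : HasDerivAt (fun t => V p v (t - c))
    ![0, v 0 ^ 2, P p v (t - c) 0 * v 0 ^ 2] t := by
  refine hasDerivAt_pi.2 fun i => ?_
  have h := (hasDerivAt_id' t).sub_const c
  fin_cases i
  · exact hasDerivAt_const _ _
  · exact ((h.const_mul _).const_add _).congr_deriv (by simp)
  · exact (((h.const_mul _).const_add _).add (((h.pow 2).const_mul _).div_const 2)).congr_deriv
      (by simp [P]; ring)

theorem geoP (p v : E) (c : ℝ) : IsGeodesicOn g (fun t => P p v (t - c)) univ := by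
  have e : deriv (fun t => P p v (t - c)) = fun t => V p v (t - c) := funext fun t => (dP p v c t).deriv
  rw [geo, e]
  exact fun t _ => ⟨(dP p v c t).differentiableAt, dV p v c t⟩

theorem uniq {F : Type} [NormedAddCommGroup F] [NormedSpace ℝ F] {s : Set ℝ} (h1 : IsOpen s)
    (h2 : s.OrdConnected) {f f' d : ℝ → F} (hf : ∀ t ∈ s, HasDerivAt f (d t) t)
    (hf' : ∀ t ∈ s, HasDerivAt f' (d t) t) {c : ℝ} (hc : c ∈ s) (e : f c = f' c) : EqOn f f' s :=
  h1.eqOn_of_deriv_eq h2.isPreconnected (fun t ht => (hf t ht).differentiableAt.differentiableWithinAt)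
    (fun t ht => (hf' t ht).differentiableAt.differentiableWithinAt)
    (fun t ht => (hf t ht).deriv.trans (hf' t ht).deriv.symm) hc e

theorem solve {γ : ℝ → E} {s : Set ℝ} (h1 : IsOpen s) (h2 : s.OrdConnected) (h : IsGeodesicOn g γ s)
    {c : ℝ} (hc : c ∈ s) : EqOn (fun t => P (γ c) (deriv γ c) (t - c)) γ s ∧
      EqOn (fun t => V (γ c) (deriv γ c) (t - c)) (deriv γ) s := by
  rw [geo] at h
  have a : EqOn (fun t => deriv γ t 0) (fun _ => deriv γ c 0) s :=
    uniq h1 h2 (fun t ht => hasDerivAt_pi.1 (h t ht).2 0) (fun t _ => hasDerivAt_const _ _) hc rfl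
  have b : EqOn (fun t => P (γ c) (deriv γ c) (t - c) 0) (fun t => γ t 0) s :=
    uniq h1 h2 (fun t _ => hasDerivAt_pi.1 (dP _ _ c t) 0)
      (fun t ht => (hasDerivAt_pi.1 (h t ht).1.hasDerivAt 0).congr_deriv (a ht)) hc (by simp [P])
  have d : EqOn (fun t => V (γ c) (deriv γ c) (t - c)) (deriv γ) s :=
    uniq h1 h2 (fun t _ => dV _ _ c t) (fun t ht => (h t ht).2.congr_deriv (by
      rw [show deriv γ t 0 = _ from a ht, show P _ _ (t - c) 0 = _ from b ht])) hc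
      (by ext i; fin_cases i <;> simp [V])
  exact ⟨uniq h1 h2 (fun t _ => dP _ _ c t) (fun t ht => (h t ht).1.hasDerivAt.congr_deriv (d ht).symm)
    hc (by ext i; fin_cases i <;> simp [P]), d⟩

def act (m n k : ℤ) (p : E) : E := ![p 0 + m, p 1 + n, p 2 + m * p 1 + k]

def Γ : Subgroup (Equiv.Perm E) where
  carrier := {φ | ∃ m n k, ∀ p, φ p = act m n k p}
  one_mem' := ⟨0, 0, 0, fun p => by ext i; fin_cases i <;> simp [act]⟩
  mul_mem' := by
    rintro φ ψ ⟨m, n, k, h⟩ ⟨m', n', k', h'⟩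
    refine ⟨m' + m, n' + n, k' + m * n' + k, fun p => ?_⟩
    rw [Equiv.Perm.mul_apply, h, h']
    ext i; fin_cases i <;> simp [act] <;> ring
  inv_mem' := by
    rintro φ ⟨m, n, k, h⟩
    refine ⟨-m, -n, m * n - k, fun p => φ.injective ?_⟩
    rw [show φ (φ⁻¹ p) = p from φ.apply_symm_apply p, h]
    ext i; fin_cases i <;> simp [act]; ring

def perm (m n k : ℤ) : Equiv.Perm E where
  toFun := act m n k
  invFun := act (-m) (-n) (m * n - k)
  left_inv p := by ext i; fin_cases i <;> simp [act]; ring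
  right_inv p := by ext i; fin_cases i <;> simp [act]; ring

theorem dact (m n k : ℤ) (p v : E) : D (act m n k) p v = ![v 0, v 1, v 2 + m * v 1] := by
  have : HasFDerivAt (act m n k) (ContinuousLinearMap.pi ![dx 0, dx 1, dx 2 + (m : ℝ) • dx 1]) p := by
    refine hasFDerivAt_pi.2 fun i => ?_
    fin_cases i
    · exact (dx 0).hasFDerivAt.add_const _
    · exact (dx 1).hasFDerivAt.add_const _
    · exact (dx 2 + (m : ℝ) • dx 1).hasFDerivAt.add_const _
  rw [D, this.fderiv]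
  ext i; fin_cases i <;> simp [dx]

theorem result : ∃ (g : E → E → E → ℝ) (η : E → E → ℝ) (Γ : Subgroup (Equiv.Perm E)),
    IsIndefMetric g ∧ IsForm η ∧ η ≠ 0 ∧ IsDeckGroup Γ g η ∧ IsComplete g ∧
    (∀ γ, IsLightLike g γ → ∃ C₁ C₂ : ℝ, ∀ t, η (γ t) (vel γ t) = C₁ * t + C₂) ∧
    ∃ γ, IsLightLike g γ ∧ ∃ C₁ C₂ : ℝ, C₁ ≠ 0 ∧ ∀ t, η (γ t) (vel γ t) = C₁ * t + C₂ := by
  refine ⟨g, fun _ v => v 1, Γ, ⟨fun w => ⟨fun v => ?_, fun p => ⟨fun _ _ => ?_, fun _ _ => ?_⟩⟩,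
    fun p v w => ?_, fun p v h => ?_, fun p => ⟨![0, 1, 0], ![1, p 0, -1], ?_, ?_⟩⟩,
    ⟨fun _ => contDiff_const, fun _ => ⟨fun _ _ => rfl, fun _ _ => rfl⟩⟩, fun h => ?_,
    ⟨?_, ?_, ?_, ?_, ?_, ?_⟩, fun γ s h1 h2 h => ?_, fun γ h => ?_, ?_⟩
  · unfold Smooth g; fun_prop
  · simp [g_apply]; ring
  · simp [g_apply]; ring
  · rw [g_apply, g_apply]; ring
  · have a0 := h (Pi.single 0 1)
    have a1 := h (Pi.single 1 1)
    have a2 := h (Pi.single 2 1)
    simp [g_apply] at a0 a1 a2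
    simp [a2] at a1
    simp [a1] at a0
    ext i; fin_cases i <;> assumption
  · simp [g_apply]
  · simp [g_apply]; nlinarith [mul_self_nonneg (p 0)]
  · simpa using congrArg (fun η : E → E → ℝ => η 0 1) h
  · rintro φ ⟨m, n, k, h⟩
    rw [funext h]
    refine contDiff_pi.2 fun i => ?_
    fin_cases i <;> simp [act] <;> fun_prop
  · rintro φ ⟨m, n, k, h⟩ p hp
    rw [h] at hp
    have a0 := congrFun hp 0
    have a1 := congrFun hp 1
    have a2 := congrFun hp 2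
    simp [act] at a0 a1
    simp [act, a0] at a2
    ext q i
    rw [h]; fin_cases i <;> simp [act, a0, a1, a2]
  · intro K hK
    obtain ⟨R, hR⟩ := hK.isBounded.exists_norm_le
    obtain ⟨N, hN⟩ := exists_nat_ge (2 * |R| + 2 * R * R)
    refine (((finite_Icc (-N : ℤ) N).prod ((finite_Icc (-N : ℤ) N).prod (finite_Icc (-N : ℤ) N))).image
      fun a => perm a.1 a.2.1 a.2.2).subset ?_
    rintro φ ⟨⟨m, n, k, h⟩, _, ⟨p, hp, rfl⟩, hq⟩
    refine ⟨(m, n, k), ?_, Equiv.ext fun p => (h p).symm⟩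
    have a := fun i => abs_le.1 ((norm_le_pi_norm p i).trans (hR p hp))
    have b := fun i => abs_le.1 ((norm_le_pi_norm (φ p) i).trans (hR _ hq))
    have b0 := b 0
    have b1 := b 1
    have b2 := b 2
    simp [h, act] at b0 b1 b2
    have c : |m * p 1| ≤ 2 * R * R := by
      rw [abs_mul]
      exact mul_le_mul (abs_le.2 ⟨by linarith [a 0], by linarith [a 0]⟩) (abs_le.2 (a 1)) (abs_nonneg _)
        (by linarith [a 0])
    have w : ∀ x : ℤ, -(N : ℝ) ≤ x → (x : ℝ) ≤ N → x ∈ Icc (-N : ℤ) N := fun x h1 h2 =>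
      ⟨by exact_mod_cast h1, by exact_mod_cast h2⟩
    have := le_abs_self R
    have := (abs_nonneg _).trans c
    refine ⟨w _ ?_ ?_, w _ ?_ ?_, w _ ?_ ?_⟩ <;> linarith [a 0, a 1, a 2, abs_le.1 c]
  · refine ⟨Icc 0 1, isCompact_Icc, fun p => ⟨perm (-⌊p 0⌋) (-⌊p 1⌋) (-⌊p 2 + (-⌊p 0⌋ : ℤ) * p 1⌋),
      ⟨_, _, _, fun _ => rfl⟩, fun i => ?_, fun i => ?_⟩⟩ <;> fin_cases i <;>
      simp only [perm, act, Equiv.coe_fn_mk, Int.cast_neg, ← sub_eq_add_neg, Int.self_sub_floor]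
    exacts [Int.fract_nonneg _, Int.fract_nonneg _, Int.fract_nonneg _, (Int.fract_lt_one _).le,
      (Int.fract_lt_one _).le, (Int.fract_lt_one _).le]
  · rintro φ ⟨m, n, k, h⟩ p v w
    rw [funext h, dact, dact, g_apply, g_apply]
    simp [act]; ring
  · rintro φ ⟨m, n, k, h⟩ p v
    rw [funext h, dact]; rfl
  · rcases s.eq_empty_or_nonempty with rfl | ⟨c, hc⟩
    · exact ⟨_, geoP 0 0 0, eqOn_empty _ _⟩
    · exact ⟨_, geoP _ _ c, (solve h1 h2 h hc).1⟩
  · refine ⟨deriv γ 0 0 ^ 2, deriv γ 0 1, fun t => ?_⟩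
    rw [vel, ← (solve isOpen_univ ordConnected_univ h.1 (mem_univ 0)).2 (mem_univ t)]
    simp [V]; ring
  · refine ⟨_, ⟨geoP 0 ![1, 0, 0] 0, ⟨0, 1, fun h => by simpa [P] using congrFun h 0⟩, fun t => ?_⟩,
      1, 0, one_ne_zero, fun t => ?_⟩ <;> rw [vel, (dP _ _ 0 t).deriv]
    · simp [g_apply, P, V]; ring
    · simp [V]

end Pool.Agent.Results.MP_64c48d_gt.Heis
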